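import Pool.Agent.H17.HKF.Fin

/-!
# Frobenius is semisimple on the cohomology of the reductions of hyperkähler varieties

Let `X` be a projective hyperkähler variety over a number field `K`, of any deformation type, and let
`v` be a place of good reduction which does not divide `ℓ`. We prove that the Frobenius acts
semisimply on `H^i(X_v, ℚ_ℓ)` for all `i`. More generally an element of the Galois group which acts
semisimply on `H²(X)` acts semisimply on all `H^i(X)`. For the Frobenius elements semisimplicity on
`H²` is known (Deligne, Piatetski-Shapiro and Shafarevich, André: `H²(X)` is a part of the
endomorphisms of `H¹` of the Kuga-Satake abelian variety, which has potentially good reduction at `v`).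

Idea of the proof. Let `A` be the algebra of the endomorphisms of `H^i` which commute with the Lie
algebra `so(H²)` (Verbitsky, Looijenga-Lunts). By the starting library (`Pool.Agent.N184.HK`) all
elements of the Galois group `G_K` act on `A` with eigenvalues which are roots of unity of bounded
order. So an open subgroup acts unipotently, and this action is potentially unramified at all places
(property (PU) of the cohomology). By Kolchin's theorem, if it is not trivial on any open subgroup,
there is an open subgroup `G_L` and a nonzero additive character of `G_L` which is unramified at all
finite places. This is impossible: otherwise `L` would have everywhere unramified cyclic extensions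
whose degrees are powers of primes greater than the class number of `L`, but the degree of an
unramified cyclic extension of a totally complex field is at most its class number (Hilbert 94 and
the Herbrand quotient of the units; this is proved here, too). So `G_K` acts on `A` through a finite
group. Let `σ` in `G_K` be semisimple on `H²`, and let `u` be its unipotent part on `H^i`. As `σ` acts
semisimply on the image of `so(H²)` and on `A`, `u` commutes with both. So `u - 1` is a nilpotent
element of the center of `A`. But `A` is a semisimple algebra, by Weyl's theorem. So `u = 1`.

Joint work with helper28 (Kolchin's theorem, potential triviality, characters, center of `A`: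
`Pool.Agent.K4H28`), helper33 and helper55 (Herbrand quotient of the units, `Pool.Agent.H33MU`,
`Pool.Agent.H55.MU.Stm`); first inequality and semisimplicity: helper17.
-/

set_option autoImplicit false

namespace Pool.Agent.Results.MP_93fb11_ag.HyperkaehlerReductions

open Pool.Agent.N184.HK Pool.Agent.H17.HKF Pool.Agent.K4H28.MT Pool.Agent.W401.Cheb NumberField
  IsDedekindDomain Module

/-- A projective hyperkähler variety `X` over a number field `K` and its `ℓ`-adic cohomology
(`HKVariety`), for a prime `ℓ` such that all places above `ℓ` are in the finite set `bad`, with the
following known properties: the representations of the Galois group on the `H^i` have property (PU)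
(`PotUnr`: Grothendieck's monodromy theorem at the places prime to `ℓ`; Faltings and Sen at the places
above `ℓ`); the Frobenius elements of the places outside of `bad` act semisimply on `H²` (Deligne,
André). -/
structure Hyperkaehler (K : Type) [Field K] [NumberField K] (Ω : Type) [Field Ω]
    [TopologicalSpace Ω] where
  X : HKVariety K Ω
  pu : PotUnr X
  two : ∀ v, v ∉ X.bad → ∀ σ, IsFrob v σ⁻¹ → (X.E.Φ σ 2).IsSemisimple

/-- **Semisimplicity of Frobenius for the reductions of projective hyperkähler varieties.** Let `X` be
a projective hyperkähler variety over a number field `K`, and `v` a place of good reduction, prime to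
`ℓ`. Then the geometric Frobenius `σ` of `v` acts semisimply on `H^i(X)`, that is, on `H^i(X_v)`, for
all `i`. More generally, every element of the Galois group which acts semisimply on `H²` acts
semisimply on all `H^i`. -/
theorem result {K : Type} [Field K] [NumberField K] {Ω : Type} [Field Ω] [CharZero Ω]
    [IsAlgClosed Ω] [TopologicalSpace Ω] [IsTopologicalRing Ω] [T2Space Ω]
    (Y : Hyperkaehler K Ω) :
    (∀ v, v ∉ Y.X.bad → ∀ σ, IsFrob v σ⁻¹ → ∀ i ≤ Y.X.d, (Y.X.E.Φ σ i).IsSemisimple) ∧
      ∀ σ : GK K, (Y.X.E.Φ σ 2).IsSemisimple → ∀ i ≤ Y.X.d, (Y.X.E.Φ σ i).IsSemisimple := by
  have h : ∀ σ : GK K, (Y.X.E.Φ σ 2).IsSemisimple → ∀ i ≤ Y.X.d, (Y.X.E.Φ σ i).IsSemisimple :=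
    fun σ h2 _ hi =>
      semisimple_all Y.X Y.pu (noUnr K Ω) hi σ h2
  exact ⟨fun v hv σ hσ i hi => h σ (Y.two v hv σ hσ) i hi, h⟩

end Pool.Agent.Results.MP_93fb11_ag.HyperkaehlerReductions
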