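import Pool.Agent.H61Eq.PlaceW
import Pool.Agent.H61Eq.CorrG

/-!
# Jordan blocks of the Frobenius and the edges of the Newton polygons

Let `X` be a smooth projective variety over the field with `q = p ^ a` elements, `V = H^w(X̄, Q̄_ℓ)` and
let `T j`, `j ∈ J`, be commuting semisimple correspondences of `X` over this field (elements of the
group algebra of a finite group of automorphisms, Hecke operators, projectors, ...; `J` may be empty).
They decompose `V` into the parts `V_χ`. The multiplicity of an eigenvalue of the Frobenius `F` on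
`V_χ` is at most the number of the segments (between neighbouring lattice points) of an edge of the
Newton polygon of the characteristic polynomial of `F` on `V_χ`, at every place above `p`. For an
eigenvalue `α` for which `α / q ^ (w / 2)` is not a root of unity there is a place at which the edge
has a slope less than `w / 2`, and in even weight the multiplicity is bounded by the Hodge numbers
belonging to `V_χ`. So the number of the segments bounds the sizes of the Jordan blocks of `F` on `V`,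
also if the multiplicities on `V` are larger. If the edges have one segment, `F` is semisimple.
-/

set_option autoImplicit false

open Polynomial Module H61Eq

namespace Pool.Agent.Results.MP_93fb11_ag.NewtonEdges

/-- The cohomology `V = H^w(X̄, K)`, `K = Q̄_ℓ`, of a smooth projective variety over the field with
`q = p ^ a` elements, with the Frobenius `F` and commuting semisimple correspondences `T j` defined
over this field. -/
structure Cohomology (p a w : ℕ) (K V J : Type*) [Field K] [AddCommGroup V] [Module K V]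
    [Module.Finite K V] where
  /-- the Frobenius -/
  F : Module.End K V
  /-- the correspondences -/
  T : J → Module.End K V
  /-- the characteristic polynomial of the Frobenius -/
  charP : ℤ[X]
  /-- it has integral coefficients (Deligne) -/
  charpoly_F : F.charpoly = charP.map (Int.castRingHom K)
  /-- the Riemann hypothesis (Deligne) -/
  weight : ∀ z : ℂ, aeval z charP = 0 → ‖z‖ ^ 2 = (p : ℝ) ^ (a * w)
  /-- the correspondences are defined over the ground field -/
  T_F : ∀ j, Commute (T j) F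
  /-- they commute -/
  T_T : ∀ i j, Commute (T i) (T j)
  /-- they are diagonalizable -/
  diag : ∀ j, (T j).IsSemisimple

variable {p a w : ℕ} {K V J : Type*} [Field K] [AddCommGroup V] [Module K V] [Module.Finite K V]

/-- the part `V_χ` of `V` on which every `T j` is the multiplication with `χ j` -/
def Cohomology.part (H : Cohomology p a w K V J) (χ : J → K) : Submodule K V :=
  ⨅ j, (H.T j).eigenspace (χ j)

/-- the multiplicity of the eigenvalue `α` of the Frobenius on `V_χ` -/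
noncomputable def Cohomology.mult (H : Cohomology p a w K V J) (χ : J → K) (α : K) : ℕ :=
  finrank K (H.part χ ⊓ H.F.maxGenEigenspace α : Submodule K V)

/-- `α` is central: `α / q ^ (w / 2)` is a root of unity -/
def IsCentral (p a w : ℕ) {K : Type*} [Field K] (α : K) : Prop :=
  ∃ m, 0 < m ∧ (α ^ 2) ^ m = ((p : K) ^ (a * w)) ^ m

/-- `P`, a polynomial over the subfield `k` of `K`, is the characteristic polynomial of the Frobenius
on the part `V_χ` -/
def IsFrobeniusPolynomial [CharZero K] (H : Cohomology p a w K V J) (χ : J → K)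
    (k : IntermediateField ℚ K) (P : k[X]) : Prop :=
  P.Monic ∧ ∀ α : K, rootMultiplicity α (P.map (algebraMap k K)) = H.mult χ α

/-- the number of the roots of absolute value `r` of `P` at the place `τ` above `p`: the length of the
edge of the Newton polygon with the slope given by `r` -/
noncomputable def numRoots [Fact p.Prime] {k : Type*} [Field k] (τ : k →+* PadicAlgCl p) (P : k[X])
    (r : ℝ) : ℕ := by
  classical exact ((P.map τ).roots.filter fun z => ‖z‖ = r).card

/-- The edge of the Newton polygon of `P` at the place `τ` with the slope given by `r` has at most `g`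
segments: if `r ^ n`, `n ≥ 1`, is the absolute value of an element of `k` then the length of the edge
is less than `(g + 1) n`. -/
def SegmentsLe [Fact p.Prime] {k : Type*} [Field k] (τ : k →+* PadicAlgCl p) (P : k[X]) (r : ℝ)
    (g : ℕ) : Prop :=
  ∀ n : ℕ, 1 ≤ n → (∃ x : k, x ≠ 0 ∧ ‖τ x‖ = r ^ n) → numRoots τ P r < (g + 1) * n

/-- at some place all edges of the Newton polygon of `P` have at most `g` segments -/
def AllEdges (p : ℕ) [Fact p.Prime] {k : Type*} [Field k] (P : k[X]) (g : ℕ) : Prop :=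
  ∃ τ : k →+* PadicAlgCl p, ∀ r : ℝ, 0 < r → SegmentsLe τ P r g

/-- At all places the edges of slope less than `w / 2` have at most `g` segments; or `w = 2 u`, all
Newton polygons of `P` lie above the line of slope `u` which passes through `(0, - h)`, the
ramification indices of `k` above `p` are at most `e`, and `a h e ≤ g`. (If `P` has the Hodge numbers
`h ^ i` then `h` is the sum of the `(u - i) h ^ i` over `i < u`.) -/
def LowEdges (p a w : ℕ) [Fact p.Prime] {k : Type*} [Field k] (P : k[X]) (g : ℕ) : Prop :=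
  (∀ (τ : k →+* PadicAlgCl p) (r : ℝ), 0 < r → ((p : ℝ) ^ (a * w))⁻¹ < r ^ 2 →
    SegmentsLe τ P r g) ∨
  ∃ u h e : ℕ, w = 2 * u ∧ a * h * e ≤ g ∧
    (∀ (τ : k →+* PadicAlgCl p) (j : ℕ), j ≤ P.natDegree →
      ‖τ (P.coeff (P.natDegree - j))‖ ≤ (((p : ℝ) ^ a)⁻¹) ^ (u * j - h)) ∧
    ∀ (τ : k →+* PadicAlgCl p) (y : k), 1 < ‖τ y‖ → (p : ℝ) ≤ ‖τ y‖ ^ e

theorem bound_of_hodge [hp : Fact p.Prime] {k : Type*} [Field k] {P : k[X]} {u h e m : ℕ}
    (hA : ∀ (τ : k →+* PadicAlgCl p) (j : ℕ), j ≤ P.natDegree →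
      ‖τ (P.coeff (P.natDegree - j))‖ ≤ (((p : ℝ) ^ a)⁻¹) ^ (u * j - h))
    (hR : ∀ (τ : k →+* PadicAlgCl p) (y : k), 1 < ‖τ y‖ → (p : ℝ) ≤ ‖τ y‖ ^ e)
    (τ : k →+* PadicAlgCl p) {y : k} (hy : 1 < ‖τ y‖)
    (hle : ‖τ y‖ ^ m * (((p : ℝ) ^ (a * u))⁻¹) ^ P.natDegree ≤
      (P.map τ).gaussNorm (vp p) ((p : ℝ) ^ (a * u))⁻¹) : m ≤ a * h * e := by
  have hp1 : (1 : ℝ) < p := by exact_mod_cast hp.out.one_lt
  have hp0 : (0 : ℝ) < p := by linarith
  set Q : ℝ := ((p : ℝ) ^ a)⁻¹ with hQdef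
  have hQ0 : 0 < Q := by positivity
  have hQ1 : Q ≤ 1 := by
    rw [hQdef]
    exact inv_le_one_of_one_le₀ (one_le_pow₀ hp1.le)
  have hRQ : ((p : ℝ) ^ (a * u))⁻¹ = Q ^ u := by rw [hQdef, inv_pow, ← pow_mul]
  rw [hRQ] at hle
  have hQu : 0 < Q ^ u := pow_pos hQ0 _
  have h1 : (P.map τ).gaussNorm (vp p) (Q ^ u) * Q ^ h ≤ (Q ^ u) ^ P.natDegree := by
    obtain ⟨i, hi⟩ := exists_eq_gaussNorm (vp p) (Q ^ u) (P.map τ)
    rw [hi, coeff_map, vp_apply]
    by_cases hlt : P.natDegree < i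
    · rw [coeff_eq_zero_of_natDegree_lt hlt, map_zero, norm_zero, zero_mul, zero_mul]
      positivity
    push Not at hlt
    have h2 := hA τ (P.natDegree - i) (Nat.sub_le _ _)
    rw [Nat.sub_sub_self hlt] at h2
    calc ‖τ (P.coeff i)‖ * (Q ^ u) ^ i * Q ^ h
        ≤ Q ^ (u * (P.natDegree - i) - h) * (Q ^ u) ^ i * Q ^ h := by gcongr
      _ = Q ^ (u * (P.natDegree - i) - h + u * i + h) := by rw [pow_add, pow_add, pow_mul]
      _ ≤ Q ^ (u * P.natDegree) := by
          apply pow_le_pow_of_le_one hQ0.le hQ1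
          have : u * P.natDegree = u * (P.natDegree - i) + u * i := by
            rw [← Nat.mul_add, Nat.sub_add_cancel hlt]
          omega
      _ = (Q ^ u) ^ P.natDegree := pow_mul _ _ _
  have h2 : ‖τ y‖ ^ m * Q ^ h ≤ 1 := by
    have h3 : ‖τ y‖ ^ m * Q ^ h * (Q ^ u) ^ P.natDegree ≤ 1 * (Q ^ u) ^ P.natDegree := by
      calc ‖τ y‖ ^ m * Q ^ h * (Q ^ u) ^ P.natDegree
          = (‖τ y‖ ^ m * (Q ^ u) ^ P.natDegree) * Q ^ h := by ring
        _ ≤ (P.map τ).gaussNorm (vp p) (Q ^ u) * Q ^ h := by gcongr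
        _ ≤ (Q ^ u) ^ P.natDegree := h1
        _ = 1 * (Q ^ u) ^ P.natDegree := (one_mul _).symm
    exact le_of_mul_le_mul_right h3 (pow_pos hQu _)
  have h3 : ‖τ y‖ ^ m ≤ (p : ℝ) ^ (a * h) := by
    have h4 : Q ^ h * (p : ℝ) ^ (a * h) = 1 := by
      rw [hQdef, inv_pow, ← pow_mul, inv_mul_cancel₀ (by positivity)]
    calc ‖τ y‖ ^ m = ‖τ y‖ ^ m * (Q ^ h * (p : ℝ) ^ (a * h)) := by rw [h4, mul_one]
      _ = (‖τ y‖ ^ m * Q ^ h) * (p : ℝ) ^ (a * h) := by ring
      _ ≤ 1 * (p : ℝ) ^ (a * h) := by gcongr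
      _ = (p : ℝ) ^ (a * h) := one_mul _
  have h4 : (p : ℝ) ^ m ≤ (p : ℝ) ^ (a * h * e) := by
    calc (p : ℝ) ^ m ≤ (‖τ y‖ ^ e) ^ m := pow_le_pow_left₀ hp0.le (hR τ y hy) m
      _ = (‖τ y‖ ^ m) ^ e := by rw [← pow_mul, ← pow_mul, mul_comm]
      _ ≤ ((p : ℝ) ^ (a * h)) ^ e := pow_le_pow_left₀ (by positivity) h3 e
      _ = (p : ℝ) ^ (a * h * e) := by rw [← pow_mul]
  exact (pow_le_pow_iff_right₀ hp1).1 h4

/-- **Jordan blocks of the Frobenius and edges of Newton polygons.** -/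
theorem result [hp : Fact p.Prime] [CharZero K] [IsAlgClosed K] (H : Cohomology p a w K V J)
    -- the characteristic polynomials of the Frobenius on the parts `V_χ`
    (k : (J → K) → IntermediateField ℚ K) [∀ χ, Algebra.IsAlgebraic ℚ (k χ)]
    (P : ∀ χ, (k χ)[X]) (hP : ∀ χ, IsFrobeniusPolynomial H χ (k χ) (P χ)) :
    -- (1) an eigenvalue of multiplicity `m` on `V_χ` gives at every place an edge with at least `m`
    -- segments; if it is not central, at some place an edge of slope less than `w / 2`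
    (∀ χ α, 0 < H.mult χ α →
      (∀ τ : k χ →+* PadicAlgCl p, ∃ r : ℝ, 0 < r ∧ ∃ n : ℕ, 1 ≤ n ∧
        (∃ x : k χ, x ≠ 0 ∧ ‖τ x‖ = r ^ n) ∧ H.mult χ α * n ≤ numRoots τ (P χ) r) ∧
      (¬ IsCentral p a w α → ∃ (τ : k χ →+* PadicAlgCl p) (r : ℝ), 0 < r ∧
        ((p : ℝ) ^ (a * w))⁻¹ < r ^ 2 ∧ ∃ n : ℕ, 1 ≤ n ∧
        (∃ x : k χ, x ≠ 0 ∧ ‖τ x‖ = r ^ n) ∧ H.mult χ α * n ≤ numRoots τ (P χ) r)) ∧
    -- (2) sizes of the Jordan blocks of `F` on `V`
    (∀ g, (∀ χ, H.part χ ≠ ⊥ → AllEdges p (P χ) g) → ∀ α, ∀ x ∈ H.F.maxGenEigenspace α,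
      ((H.F - α • (1 : Module.End K V)) ^ g) x = 0) ∧
    -- (3) sizes of the Jordan blocks for the eigenvalues which are not central
    (∀ g, (∀ χ, H.part χ ≠ ⊥ → AllEdges p (P χ) g ∨ LowEdges p a w (P χ) g) →
      ∀ α, ¬ IsCentral p a w α → (∀ χ, H.mult χ α ≤ g) ∧ ∀ x ∈ H.F.maxGenEigenspace α,
        ((H.F - α • (1 : Module.End K V)) ^ g) x = 0) ∧
    -- (4) semisimplicity at the eigenvalues which are not central, over all finite extensions
    ((∀ χ, H.part χ ≠ ⊥ → AllEdges p (P χ) 1 ∨ LowEdges p a w (P χ) 1) →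
      ∀ n, 0 < n → ∀ β, ¬ IsCentral p (a * n) w β →
        (H.F ^ n).maxGenEigenspace β = (H.F ^ n).eigenspace β) ∧
    -- (5) semisimplicity on `V`, over all finite extensions
    ((∀ χ, H.part χ ≠ ⊥ → AllEdges p (P χ) 1 ∨
        (LowEdges p a w (P χ) 1 ∧ ∀ α, IsCentral p a w α → H.mult χ α ≤ 1)) →
      ∀ n, 0 < n → ∀ β, (H.F ^ n).maxGenEigenspace β = (H.F ^ n).eigenspace β) := by
  classical
  have hmonic : H.charP.Monic := by
    apply monic_of_injective (f := Int.castRingHom K) (RingHom.injective_int _)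
    rw [← H.charpoly_F]
    exact LinearMap.charpoly_monic _
  have hroot : ∀ χ α, 0 < H.mult χ α → aeval α H.charP = 0 := by
    intro χ α h0
    have h1 : 0 < rootMultiplicity α H.F.charpoly := by
      rw [← LinearMap.finrank_maxGenEigenspace_eq]
      exact lt_of_lt_of_le h0 (cmult_le χ α)
    have h2 := (rootMultiplicity_pos (LinearMap.charpoly_monic _).ne_zero).1 h1
    rw [H.charpoly_F, IsRoot, eval_map] at h2
    rw [aeval_def]; exact h2
  have hint : ∀ χ α, 0 < H.mult χ α → IsIntegral ℤ α := by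
    intro χ α h0
    exact ⟨H.charP, hmonic, by have := hroot χ α h0; rwa [aeval_def] at this⟩
  have hne : ∀ χ α, 0 < H.mult χ α → α ≠ 0 := by
    rintro χ α h0 rfl
    have h1 := hroot χ 0 h0
    have h2 : H.charP.coeff 0 = 0 := by
      rw [aeval_def, eval₂_at_zero, eq_intCast] at h1
      exact_mod_cast h1
    have h3 : aeval (0 : ℂ) H.charP = 0 := by
      rw [aeval_def, eval₂_at_zero, h2]; simp
    have h4 := H.weight 0 h3
    rw [norm_zero] at h4
    have h5 : (0 : ℝ) < (p : ℝ) ^ (a * w) := pow_pos (by exact_mod_cast hp.out.pos) _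
    rw [← h4] at h5
    norm_num at h5
  -- (1)
  have hA : ∀ χ α, 0 < H.mult χ α →
      (∀ τ : k χ →+* PadicAlgCl p, ∃ r : ℝ, 0 < r ∧ ∃ n : ℕ, 1 ≤ n ∧
        (∃ x : k χ, x ≠ 0 ∧ ‖τ x‖ = r ^ n) ∧ H.mult χ α * n ≤ numRoots τ (P χ) r) := by
    intro χ α h0 τ
    have hαk : IsIntegral (k χ) α := (hint χ α h0).tower_top
    obtain ⟨β, hβ⟩ := exists_root_at (k χ) hαk τ
    obtain ⟨h1, h2⟩ := edge (k χ) (hP χ).1 hαk (hne χ α h0) τ hβ
    rw [(hP χ).2 α] at h2
    exact ⟨‖β‖, h1, h2⟩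
  have hni : ∀ χ α, 0 < H.mult χ α → ¬ IsCentral p a w α →
      ¬ IsIntegral ℤ (α ^ 2 / (p : K) ^ (a * w)) := by
    intro χ α h0 hc
    exact not_integral_sq hp.out hmonic H.weight (hroot χ α h0) fun m hm h => hc ⟨m, hm, h⟩
  have hB : ∀ χ α, 0 < H.mult χ α → ¬ IsCentral p a w α →
      ∃ (τ : k χ →+* PadicAlgCl p) (r : ℝ), 0 < r ∧
        ((p : ℝ) ^ (a * w))⁻¹ < r ^ 2 ∧ ∃ n : ℕ, 1 ≤ n ∧
        (∃ x : k χ, x ≠ 0 ∧ ‖τ x‖ = r ^ n) ∧ H.mult χ α * n ≤ numRoots τ (P χ) r := by
    intro χ α h0 hc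
    have hαk : IsIntegral (k χ) α := (hint χ α h0).tower_top
    obtain ⟨τ, β, hβ, hn⟩ := exists_place_sq (hint χ α h0) (hni χ α h0 hc) (k χ)
    obtain ⟨h1, h2⟩ := edge (k χ) (hP χ).1 hαk (hne χ α h0) τ hβ
    rw [(hP χ).2 α] at h2
    exact ⟨τ, ‖β‖, h1, hn, h2⟩
  have hseg : ∀ {m n c g : ℕ}, 1 ≤ n → m * n ≤ c → c < (g + 1) * n → m ≤ g := by
    intro m n c g hn h1 h2
    by_contra hlt
    push Not at hlt
    have h3 : (g + 1) * n ≤ m * n := Nat.mul_le_mul_right n hlt
    omega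
  have hall : ∀ χ g, AllEdges p (P χ) g → ∀ α, H.mult χ α ≤ g := by
    rintro χ g ⟨τ, hτ⟩ α
    rcases Nat.eq_zero_or_pos (H.mult χ α) with h0 | h0
    · rw [h0]; exact Nat.zero_le _
    obtain ⟨r, hr, n, hn, hx, hle⟩ := hA χ α h0 τ
    exact hseg hn hle (hτ r hr n hn hx)
  have hlow : ∀ χ g, LowEdges p a w (P χ) g → ∀ α, ¬ IsCentral p a w α → H.mult χ α ≤ g := by
    intro χ g hlow α hα
    rcases Nat.eq_zero_or_pos (H.mult χ α) with h0 | h0
    · rw [h0]; exact Nat.zero_le _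
    rcases hlow with h | ⟨u, h, e, hw, hg, hH, hR⟩
    · obtain ⟨τ, r, hr, hr2, n, hn, hx, hle⟩ := hB χ α h0 hα
      exact hseg hn hle (h τ r hr hr2 n hn hx)
    · refine le_trans ?_ hg
      have hαk : IsIntegral (k χ) α := (hint χ α h0).tower_top
      obtain ⟨τ, β, hβ, hn⟩ := exists_place_sq (hint χ α h0) (hni χ α h0 hα) (k χ)
      have hn' : ((p : ℝ) ^ (a * u))⁻¹ < ‖β‖ := by
        have h1 : ((p : ℝ) ^ (a * w))⁻¹ = (((p : ℝ) ^ (a * u))⁻¹) ^ 2 := by
          rw [inv_pow, ← pow_mul, hw]; congr 2; ring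
        rw [h1] at hn
        exact lt_of_pow_lt_pow_left₀ 2 (norm_nonneg _) hn
      obtain ⟨y, hy, hle⟩ := excess (k χ) (hP χ).1 hαk τ hβ hn'
      rw [(hP χ).2 α] at hle
      exact bound_of_hodge hH hR τ hy hle
  have hbot : ∀ χ, H.part χ = ⊥ → ∀ α, H.mult χ α = 0 := fun χ h α => cmult_bot h α
  refine ⟨fun χ α h0 => ⟨hA χ α h0, hB χ α h0⟩, ?_, ?_, ?_, ?_⟩
  · intro g hg α x hx
    apply ckills_all H.T_F H.T_T H.diag _ hx
    intro χ
    by_cases hχ : H.part χ = ⊥
    · exact (hbot χ hχ α).le.trans (Nat.zero_le _)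
    · exact hall χ g (hg χ hχ) α
  · intro g hg α hα
    have h1 : ∀ χ, H.mult χ α ≤ g := by
      intro χ
      by_cases hχ : H.part χ = ⊥
      · exact (hbot χ hχ α).le.trans (Nat.zero_le _)
      · exact (hg χ hχ).elim (fun h => hall χ g h α) (fun h => hlow χ g h α hα)
    exact ⟨h1, fun x hx => ckills_all H.T_F H.T_T H.diag h1 hx⟩
  · intro hg n hn β hβ
    apply Y146.HW.maxGen_pow_eq
    intro α hα
    have hα' : ¬ IsCentral p a w α := by
      rintro ⟨m, hm, h⟩
      apply hβ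
      refine ⟨m, hm, ?_⟩
      rw [← hα, ← pow_mul, ← pow_mul, mul_assoc]
      rw [← pow_mul, ← pow_mul] at h
      calc α ^ (n * (2 * m)) = (α ^ (2 * m)) ^ n := by rw [← pow_mul]; congr 1; ring
        _ = ((p : K) ^ (a * w * m)) ^ n := by rw [h]
        _ = ((p : K) ^ (a * (n * w))) ^ m := by rw [← pow_mul, ← pow_mul]; congr 1; ring
    apply css H.T_F H.T_T H.diag
    intro χ
    by_cases hχ : H.part χ = ⊥
    · exact (hbot χ hχ α).le.trans (Nat.zero_le _)
    · exact (hg χ hχ).elim (fun h => hall χ 1 h α) (fun h => hlow χ 1 h α hα')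
  · intro hg n hn β
    apply Y146.HW.maxGen_pow_eq
    intro α _
    apply css H.T_F H.T_T H.diag
    intro χ
    by_cases hχ : H.part χ = ⊥
    · exact (hbot χ hχ α).le.trans (Nat.zero_le _)
    rcases hg χ hχ with h | ⟨h, h'⟩
    · exact hall χ 1 h α
    · by_cases hα : IsCentral p a w α
      · exact h' α hα
      · exact hlow χ 1 h α hα

end Pool.Agent.Results.MP_93fb11_ag.NewtonEdges
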