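import Mathlib
import Pool.Agent.H40ZL.Fibre

/-!
# One fibre with semisimple Frobenius

Let `f : X → S` be a smooth projective morphism, `S` a normal geometrically connected scheme of finite type over a finite
field of characteristic different from `ℓ`, `Γ = π₁(S)`, `N = π₁(S̄)` the geometric fundamental group, and let `ρ` be the
representation of `Γ` on `H^i` of the geometric generic fibre.  The restriction of `ρ` to `N` is semisimple (Deligne).  The
Frobenius element of a closed point `s` is mapped to the power `deg s` of the Frobenius element in `Γ / N = Ẑ`, so `N` and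
this element generate topologically an open subgroup.

We show: if Frobenius is semisimple on `H^i` of one closed fibre, then Frobenius is semisimple on `H^i` of every closed
fibre for which the number of the distinct Frobenius eigenvalues is maximal (among all closed fibres; or among those which
are completely split in a given finite étale Galois covering of `S`), and after a finite étale covering (none, if the
monodromy is connected) these are all closed fibres outside a set of density zero.
-/

set_option autoImplicit false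

namespace Pool.Agent.Results.MP_93fb11_ag.OneSemisimpleFibre

open Matrix MeasureTheory

variable {K : Type} [Field K] (C : Type) [Field C] [Algebra K C] {Γ : Type} [Group Γ] {b : ℕ}

/-- The monodromy of `ρ` is connected: every polynomial over the algebraically closed field `C` in the entries of the
matrices which vanishes on an open subgroup vanishes on the whole group. -/
def HasConnectedMonodromy [TopologicalSpace Γ] (ρ : Γ →* Matrix (Fin b) (Fin b) K) : Prop :=
  ∀ D : Subgroup Γ, IsOpen (D : Set Γ) → ∀ P : MvPolynomial (Fin b × Fin b) C,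
    (∀ x ∈ D, MvPolynomial.eval (fun q => algebraMap K C (ρ x q.1 q.2)) P = 0) →
    ∀ x, MvPolynomial.eval (fun q => algebraMap K C (ρ x q.1 q.2)) P = 0

/-- The subspace `U` of `K^b` is stable under the matrix `M`. -/
def IsStable (M : Matrix (Fin b) (Fin b) K) (U : Submodule K (Fin b → K)) : Prop := ∀ v ∈ U, M *ᵥ v ∈ U

/-- The restriction of `ρ` to the subgroup `N` is semisimple: every `N`-stable subspace has an `N`-stable complement. -/
def IsSemisimpleOn (N : Subgroup Γ) (ρ : Γ →* Matrix (Fin b) (Fin b) K) : Prop :=
  ∀ U : Submodule K (Fin b → K), (∀ x ∈ N, IsStable (ρ x) U) →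
    ∃ U' : Submodule K (Fin b → K), (∀ x ∈ N, IsStable (ρ x) U') ∧ IsCompl U U'

/-- The matrix `M` is semisimple: every `M`-stable subspace has an `M`-stable complement. -/
def IsSemisimple (M : Matrix (Fin b) (Fin b) K) : Prop :=
  ∀ U : Submodule K (Fin b → K), IsStable M U → ∃ U' : Submodule K (Fin b → K), IsStable M U' ∧ IsCompl U U'

open scoped Classical in
/-- The number of the distinct eigenvalues of `M` in the algebraically closed field `C`. -/
noncomputable def distinctEigenvalues (M : Matrix (Fin b) (Fin b) K) : ℕ :=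
  (M.charpoly.map (algebraMap K C)).roots.toFinset.card

/-- `σ` is an element of `D` such that the number of the distinct eigenvalues of `ρ σ` is maximal in `D`. -/
def IsMaximalIn (D : Subgroup Γ) (ρ : Γ →* Matrix (Fin b) (Fin b) K) (σ : Γ) : Prop :=
  σ ∈ D ∧ ∀ τ ∈ D, distinctEigenvalues C (ρ τ) ≤ distinctEigenvalues C (ρ σ)

/-- The subgroup `N` and the element `σ₀` generate topologically an open subgroup. -/
def GeneratesOpen [TopologicalSpace Γ] (N : Subgroup Γ) (σ₀ : Γ) : Prop :=
  IsOpen (_root_.closure ((N ⊔ Subgroup.zpowers σ₀ : Subgroup Γ) : Set Γ))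

/-- A closed set of Haar measure zero, stable under conjugation. -/
def IsSmall [TopologicalSpace Γ] [IsTopologicalGroup Γ] [CompactSpace Γ] [MeasurableSpace Γ] [BorelSpace Γ]
    (Z : Set Γ) : Prop :=
  IsClosed Z ∧ Measure.haar Z = 0 ∧ ∀ x ∈ Z, ∀ τ, τ * x * τ⁻¹ ∈ Z

/-- There is an open normal subgroup `D`, equal to `Γ` if the monodromy is connected, such that for all `σ` in `D` outside
a closed conjugation-stable set of Haar measure zero the number of the distinct eigenvalues of `ρ σ` is maximal in `D` and
`ρ σ` is semisimple. -/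
def AlmostAllSemisimple [TopologicalSpace Γ] [IsTopologicalGroup Γ] [CompactSpace Γ] [MeasurableSpace Γ]
    [BorelSpace Γ] (ρ : Γ →* Matrix (Fin b) (Fin b) K) : Prop :=
  ∃ D : Subgroup Γ, D.Normal ∧ IsOpen (D : Set Γ) ∧ (HasConnectedMonodromy C ρ → D = ⊤) ∧
    ∃ Z : Set Γ, IsSmall Z ∧ ∀ σ ∈ D, σ ∉ Z → IsMaximalIn C D ρ σ ∧ IsSemisimple (ρ σ)

theorem isSemisimple_iff (M : Matrix (Fin b) (Fin b) K) :
    IsSemisimple M ↔ Module.End.IsSemisimple (Matrix.toLin' M) := by
  rw [Module.End.isSemisimple_iff]
  have h : ∀ U : Submodule K (Fin b → K), IsStable M U ↔ U ≤ Submodule.comap (Matrix.toLin' M) U := by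
    intro U
    constructor
    · intro h v hv
      have h1 := h v hv
      rwa [Submodule.mem_comap, Matrix.toLin'_apply]
    · intro h v hv
      have h1 := h hv
      rwa [Submodule.mem_comap, Matrix.toLin'_apply] at h1
  constructor
  · intro hs U hU
    obtain ⟨U', h1, h2⟩ := hs U ((h U).2 hU)
    exact ⟨U', (h U').1 h1, h2⟩
  · intro hs U hU
    obtain ⟨U', h1, h2⟩ := hs U ((h U).1 hU)
    exact ⟨U', (h U').2 h1, h2⟩

/-- **Theorem.** Let `K` be a topological field of characteristic zero, contained continuously in an algebraically closed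
topological field `C` (for example `K = ℚ_ℓ` or a finite extension, `C` its algebraic closure).  Let `Γ` be a compact
group, `N` a normal subgroup and `ρ` a continuous representation of `Γ` over `K` whose restriction to `N` is semisimple.
Suppose that `ρ σ₀` is semisimple for one element `σ₀` which topologically generates together with `N` an open subgroup.
Then for every normal subgroup `D` of `Γ` (for example `D = Γ`) and all `σ` in `D` such that the number of distinct
eigenvalues of `ρ σ` is maximal among the elements of `D`, the matrix `ρ σ` is semisimple.  There is an open normal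
subgroup `D`, equal to `Γ` if the monodromy is connected, such that this applies to all `σ` in `D` outside a closed set of
Haar measure zero, stable under conjugation. -/
theorem result (K : Type) [Field K] [CharZero K] [TopologicalSpace K] [IsTopologicalRing K] [T1Space K]
    (C : Type) [Field C] [IsAlgClosed C] [Algebra K C] [TopologicalSpace C] [IsTopologicalRing C] [T2Space C]
    (hKC : Continuous (algebraMap K C))
    (Γ : Type) [Group Γ] [TopologicalSpace Γ] [IsTopologicalGroup Γ] [CompactSpace Γ] [MeasurableSpace Γ]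
    [BorelSpace Γ] (N : Subgroup Γ) (hN : N.Normal) (b : ℕ) (ρ : Γ →* Matrix (Fin b) (Fin b) K)
    (hρ : Continuous ρ) (hss : IsSemisimpleOn N ρ) (σ₀ : Γ) (hgen : GeneratesOpen N σ₀) (hσ₀ : IsSemisimple (ρ σ₀)) :
    (∀ D : Subgroup Γ, D.Normal → ∀ σ, IsMaximalIn C D ρ σ → IsSemisimple (ρ σ)) ∧ AlmostAllSemisimple C ρ := by
  have hall : Pool.Agent.H40ZL.SSimple (Set.range ρ) := by
    refine Pool.Agent.H40ZL.ssimple_all ρ hρ N ?_ σ₀ ((isSemisimple_iff _).1 hσ₀) hgen
    intro U hU
    obtain ⟨U', hU', hc⟩ := hss U fun x hx v hv => hU _ ⟨x, hx, rfl⟩ v hv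
    refine ⟨U', ?_, hc⟩
    rintro _ ⟨x, hx, rfl⟩ v hv
    exact hU' x hx v hv
  have h1 : ∀ D : Subgroup Γ, D.Normal → ∀ σ, IsMaximalIn C D ρ σ → IsSemisimple (ρ σ) := by
    rintro D hD σ ⟨hσ, hmax⟩
    exact (isSemisimple_iff _).2 (Pool.Agent.H40ZL.semisimple_of_max (G := C) ρ hall D (hDn := hD) σ hσ hmax)
  refine ⟨h1, ?_⟩
  obtain ⟨D, hD1, hD2, hD3, Z, hZ1, hZ2, hZ3, hZ4⟩ :=
    Pool.Agent.H40ZL.exists_generic (G := C) hKC Measure.haar ρ hρ
  refine ⟨D, hD1, hD2, fun h => hD3 ?_, Z, ⟨hZ1, hZ2, hZ3⟩, fun σ hσ hσZ => ⟨⟨hσ, ?_⟩, ?_⟩⟩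
  · intro D' hD' _ P hP x _
    exact h D' hD' P hP x
  · exact hZ4 σ hσ hσZ
  · exact h1 D hD1 σ ⟨hσ, hZ4 σ hσ hσZ⟩

end Pool.Agent.Results.MP_93fb11_ag.OneSemisimpleFibre
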