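import Pool.Agent.H17Ss.Main

/-!
# A zero-one law for the semisimplicity of Frobenius

Let `X` be a smooth projective variety over a finite field, `K = Q̄_ℓ`, let `V` be `H^r(X̄, K)` (or
the sum of all of them) with the Frobenius `F`, and `b = dim V`. By Künneth and duality the
space `End (V ^ ⊗ n)`, with the Frobenius `X ↦ F^{⊗n} X (F^{⊗n})⁻¹`, is a direct summand of
`H^{2dn}(X^{2n})(dn)`. Its elements fixed by the Frobenius are Tate classes, and the multiplicity of
the eigenvalue `1` is the contribution of this summand to the order of the pole of the zeta function of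
`X^{2n}` at `s = dn`. The two numbers are equal for all `n` if `F` is semisimple on `V`. We show: if
`F` is not semisimple on `V`, then the share of the Tate classes is at most `√(2 b / n)` for all
`n ≥ 4 b ^ 4`. So the semisimplicity of `F` on `V` follows if for one `n ≥ 4 b ^ 4` more than a fourth of the
pole is explained by Tate classes (for instance by algebraic cycles).
-/

set_option autoImplicit false

open Module Pool.Agent.H17Ss TensorProduct

namespace Pool.Agent.Results.MP_93fb11_ag.SemisimplicityShare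

variable {K : Type*} [Field K] {V : Type*} [AddCommGroup V] [Module K V]

/-- `F` acts semisimply -/
def Semisimple (F : V ≃ₗ[K] V) : Prop := Module.End.IsSemisimple (F : End K V)

/-- The endomorphisms of the `n`-th tensor power of `V`. -/
def TEnd (K V : Type*) [Field K] [AddCommGroup V] [Module K V] (n : ℕ) : Type _ :=
  End K (⨂[K] _ : Fin n, V)

noncomputable instance (n : ℕ) : AddCommGroup (TEnd K V n) := LinearMap.addCommGroup

noncomputable instance (n : ℕ) : Module K (TEnd K V n) := LinearMap.module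

/-- The Frobenius on `End (V ^ ⊗ n)`: `X ↦ F^{⊗n} X (F^{⊗n})⁻¹`. -/
noncomputable def frob (F : V ≃ₗ[K] V) (n : ℕ) : End K (TEnd K V n) := frobEnd F n

/-- The space of the Tate classes in `End (V ^ ⊗ n)`: the elements fixed by the Frobenius. -/
noncomputable def tateClasses (F : V ≃ₗ[K] V) (n : ℕ) : Submodule K (TEnd K V n) :=
  (frob F n).eigenspace 1

/-- The generalised eigenspace of the Frobenius for the eigenvalue `1`. -/
noncomputable def genClasses (F : V ≃ₗ[K] V) (n : ℕ) : Submodule K (TEnd K V n) :=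
  (frob F n).maxGenEigenspace 1

/-- The multiplicity of the eigenvalue `1` of the Frobenius on `End (V ^ ⊗ n)`. -/
noncomputable def poleOrder (F : V ≃ₗ[K] V) (n : ℕ) : ℕ := finrank K (genClasses F n)

/-- The share of the subspace `A` of `End (V ^ ⊗ n)`: its dimension divided by the multiplicity of the
eigenvalue `1`. -/
noncomputable def share (F : V ≃ₗ[K] V) (n : ℕ) (A : Submodule K (TEnd K V n)) : ℝ :=
  (finrank K A : ℝ) / poleOrder F n

/-- `√(b / 2 n) + (n + 1) ^ b (1 - 1 / b ^ 2) ^ (2 n)` -/
noncomputable def bound (b n : ℕ) : ℝ :=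
  √((b : ℝ) / (2 * n)) + ((n : ℝ) + 1) ^ b * (1 - 1 / (b : ℝ) ^ 2) ^ (2 * n)

/-- `√(2 b / n)` -/
noncomputable def bound' (b n : ℕ) : ℝ := √(2 * (b : ℝ) / n)

/-- **Zero-one law for the semisimplicity of Frobenius.** Let `F` be an automorphism of a vector space
`V` of dimension `b ≥ 1`. -/
theorem result [IsAlgClosed K] [CharZero K] (F : V ≃ₗ[K] V) {b : ℕ} (hb : finrank K V = b)
    (hb0 : 0 < b) :
    -- (1) if `F` is semisimple, the Tate classes explain the whole multiplicity
    (Semisimple F → ∀ n, share F n (tateClasses F n) = 1) ∧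
    -- (2) if `F` is not semisimple, their share tends to zero
    (¬ Semisimple F → ∀ n ≥ 1, share F n (tateClasses F n) ≤ bound b n) ∧
    (¬ Semisimple F → ∀ n ≥ 4 * b ^ 4, share F n (tateClasses F n) ≤ bound' b n) ∧
    -- (3) every single `n ≥ 4 b ^ 4` decides
    (∀ n ≥ 4 * b ^ 4, Semisimple F ↔ 1 / 4 < share F n (tateClasses F n)) ∧
    -- (4) so does a space `A` of Tate classes (for instance of classes of algebraic cycles)
    (∀ n ≥ 4 * b ^ 4, ∀ A ≤ tateClasses F n, 1 / 4 < share F n A → Semisimple F) := by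
  have hfinV : FiniteDimensional K V := Module.finite_of_finrank_pos (by omega)
  have hfin0 : ∀ n : ℕ, FiniteDimensional K (End K (⨂[K] _ : Fin n, V)) := by
    intro n
    obtain ⟨S, N, hS, hS0, hN, hNS, -, -⟩ := exists_decomp F
    obtain ⟨ι, _, _, e, -⟩ := exists_jordan hS hS0 hN hNS
    have : FiniteDimensional K (⨂[K] _ : Fin n, V) := Module.Finite.of_basis (tb e n)
    infer_instance
  have hfin : ∀ n : ℕ, FiniteDimensional K (TEnd K V n) := fun n => hfin0 n
  have e1 : ∀ n, finrank K (tateClasses F n) = tD F n := fun n => rfl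
  have e2 : ∀ n, poleOrder F n = pO F n := fun n => rfl
  have hpos : ∀ n, 0 < poleOrder F n := by
    intro n
    rw [e2]
    have := hfin0 n
    have h1 : (1 : End K (⨂[K] _ : Fin n, V)) ∈ (frobEnd F n).maxGenEigenspace 1 := by
      refine (mem_gen_iff F n _).2 ⟨1, ?_⟩
      rw [pow_one, adE_apply, mul_one, one_mul, sub_self]
    have h2 : (1 : End K (⨂[K] _ : Fin n, V)) ≠ 0 := by
      obtain ⟨S, N, hS, hS0, hN, hNS, -, -⟩ := exists_decomp F
      obtain ⟨ι, _, _, e, -⟩ := exists_jordan hS hS0 hN hNS
      rw [finrank_eq_card_basis e] at hb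
      rw [← hb, Fintype.card_pos_iff] at hb0
      obtain ⟨q⟩ := hb0
      intro h
      have h3 : tb e n (fun _ => q) ≠ 0 := Basis.ne_zero _ _
      apply h3
      have := congrArg (fun G : End K (⨂[K] _ : Fin n, V) => G (tb e n fun _ => q)) h
      exact this
    have h5 : Nontrivial ((frobEnd F n).maxGenEigenspace 1) :=
      ⟨⟨⟨1, h1⟩, 0, fun h => h2 (congrArg Subtype.val h)⟩⟩
    exact Module.finrank_pos (R := K) (M := (frobEnd F n).maxGenEigenspace 1)
  have hpos' : ∀ n, (0 : ℝ) < poleOrder F n := fun n => by exact_mod_cast hpos n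
  have one : ¬ Semisimple F → ∀ n ≥ 1, share F n (tateClasses F n) ≤ bound b n := by
    intro hF n hn
    rw [share, div_le_iff₀ (hpos' n), ← hb]
    exact share_le F hF hn
  have key : ¬ Semisimple F → ∀ n ≥ 4 * b ^ 4, share F n (tateClasses F n) ≤ bound' b n := by
    intro hF n hn
    have hb2 := two_le F hF
    rw [hb] at hb2
    have hb0 : (2 : ℝ) ≤ (b : ℝ) := by exact_mod_cast hb2
    have hb4 : 1 ≤ b ^ 4 := Nat.one_le_pow _ _ (by omega)
    have hn1 : 1 ≤ n := by omega
    have hn0 : (0 : ℝ) < n := by exact_mod_cast hn1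
    refine (one hF n hn1).trans ?_
    have h1 := second_le hb2 hn
    have h2 : √(2 * (b : ℝ) / n) = 2 * √((b : ℝ) / (2 * n)) := by
      rw [show 2 * (b : ℝ) / n = 2 ^ 2 * ((b : ℝ) / (2 * n)) by
        field_simp, Real.sqrt_mul (by norm_num), Real.sqrt_sq (by norm_num)]
    rw [bound', h2, bound]
    linarith
  have key2 : ¬ Semisimple F → ∀ n ≥ 4 * b ^ 4, share F n (tateClasses F n) ≤ 1 / 4 := by
    intro hF n hn
    have hb2 := two_le F hF
    rw [hb] at hb2
    have hb0 : (2 : ℝ) ≤ (b : ℝ) := by exact_mod_cast hb2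
    have hn4 : 4 * (b : ℝ) ^ 4 ≤ n := by exact_mod_cast hn
    have hn0 : (0 : ℝ) < n := lt_of_lt_of_le (by positivity) hn4
    refine (key hF n hn).trans ?_
    rw [bound', Real.sqrt_le_left (by norm_num), div_le_iff₀ hn0]
    have h3 : (8 : ℝ) ≤ (b : ℝ) ^ 3 := by
      calc (8 : ℝ) = 2 ^ 3 := by norm_num
        _ ≤ (b : ℝ) ^ 3 := pow_le_pow_left₀ (by norm_num) hb0 3
    nlinarith
  have hss : Semisimple F → ∀ n, share F n (tateClasses F n) = 1 := by
    intro hF n
    rw [share, e1, eq_of_semisimple F hF n, ← e2, div_self (hpos' n).ne']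
  refine ⟨hss, one, key, fun n hn => ⟨fun hF => ?_, fun h => ?_⟩, fun n hn A hA hlt => ?_⟩
  · rw [hss hF n]; norm_num
  · by_contra hF
    have := key2 hF n hn
    linarith
  · by_contra hF
    have h1 := key2 hF n hn
    have := hfin n
    have h2 : (finrank K A : ℝ) ≤ (finrank K (tateClasses F n) : ℝ) := by
      exact_mod_cast Submodule.finrank_mono hA
    have h3 : share F n A ≤ share F n (tateClasses F n) := by
      rw [share, share]
      exact div_le_div_of_nonneg_right h2 (hpos' n).le
    linarith

end Pool.Agent.Results.MP_93fb11_ag.SemisimplicityShare
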